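import Pool.Agent.MP_394f71_al.H79.Poly

set_option autoImplicit false

namespace Pool.Agent.Results.MP_394f71_al.FiniteWordGroup

open Pool.Agent.MP_394f71_al.H79

/-- The value `w(g_1, ..., g_n)` of a group word in the group structure `γ` on the set `G`. -/
def wordVal {G : Type} (γ : Group G) {n : ℕ} (w : FreeGroup (Fin n)) (g : Fin n → G) : G :=
  letI := γ
  FreeGroup.lift g w

/-- The word `w` is a law of the group structure `γ` on the set `G`. -/
def IsLaw {G : Type} (γ : Group G) {n : ℕ} (w : FreeGroup (Fin n)) : Prop :=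
  ∀ g : Fin n → G, wordVal γ w g = γ.one

/-- The multiplication of the group structure `δ` is `x ⊙ y = v(x, y)`, computed in `γ`. -/
def IsWordGroup {G : Type} (γ : Group G) (v : FreeGroup (Fin 2)) (δ : Group G) : Prop :=
  ∀ x y : G, δ.mul x y = wordVal γ v ![x, y]

theorem finite_base : ∃ (B : Type) (_ : CommRing B), Finite B ∧ Nonempty (Base B) := by
  obtain ⟨B, _, ⟨A⟩⟩ := exists_base
  let S : Subalgebra ℤ B := Algebra.adjoin ℤ {A.x, A.y}
  have hx : A.x ∈ S := Algebra.subset_adjoin (by simp)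
  have hy : A.y ∈ S := Algebra.subset_adjoin (by simp)
  obtain ⟨N, hN0, hNe, hN⟩ : ∃ N, 0 < N ∧ J + 25 = N ∧ A.m ^ N = ⊥ :=
    ⟨_, Nat.succ_pos _, rfl, A.hN⟩
  have nil : ∀ z ∈ A.m, IsIntegral ℤ z := fun z hz => by
    have h : z ^ N = 0 := by
      have := Ideal.pow_mem_pow hz N
      rwa [hN, Ideal.mem_bot] at this
    exact IsIntegral.of_pow hN0 (by rw [h]; exact isIntegral_zero)
  let φ : S →+* B := S.val.toRingHom
  have hφ : Function.Injective φ := Subtype.val_injective
  have h13 : (13 : S) = 0 := hφ (by rw [map_ofNat, map_zero, A.h13])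
  have hf : Module.Finite ℤ S := by
    refine Algebra.finite_adjoin_of_finite_of_isIntegral (Set.toFinite _) ?_
    rintro z (rfl | rfl)
    · exact nil _ A.hx
    · exact nil _ A.hy
  refine ⟨S, inferInstance, Module.finite_of_fg_torsion _ ?_,
    ⟨⟨A.m.comap φ, ⟨A.x, hx⟩, ⟨A.y, hy⟩, h13, A.hx, A.hy, ?_, ?_, ?_, ?_, ?_⟩⟩⟩
  · intro z
    refine ⟨⟨13, mem_nonZeroDivisors_of_ne_zero (by norm_num)⟩, ?_⟩
    show (13 : ℤ) • z = 0
    rw [zsmul_eq_mul, Int.cast_ofNat, h13, zero_mul]
  · rw [hNe]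
    refine le_bot_iff.1 ((Ideal.le_comap_pow φ N).trans ?_)
    rw [hN]
    exact (Ideal.comap_bot_le_of_injective φ hφ)
  · apply hφ
    rw [map_pow, map_sub, map_sub, map_pow, map_pow]
    exact A.r12
  · apply hφ
    rw [map_pow, map_sub, map_sub, map_pow, map_pow, map_UU]
    exact A.r13
  · apply hφ
    rw [map_pow, map_sub, map_sub, map_pow, map_pow, map_UU]
    exact A.r23
  · intro h
    have k := congrArg φ h
    rw [map_mul, map_mul, map_pow, map_DD, map_gg, map_form, map_zero] at k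
    exact A.ne k

theorem finite_UT (R : Type) [Finite R] : Finite (UT R) :=
  Finite.of_injective
    (fun x : UT R => (x.d1, x.d2, x.d3, x.d4, x.a12, x.a23, x.a34, x.a13, x.a24, x.a14))
    (fun x y h => by
      simp only [Prod.mk.injEq] at h
      obtain ⟨h1, h2, h3, h4, h5, h6, h7, h8, h9, h10⟩ := h
      exact UT.ext h1 h2 h3 h4 h5 h6 h7 h8 h9 h10)

/-- The law in seven variables. -/
def w7 : FreeGroup (Fin 7) := law7 fun i => FreeGroup.of (Fin.ofNat 7 i)

theorem lift_w7 {K : Type} [Group K] (g : Fin 7 → K) :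
    FreeGroup.lift g w7 = law7 fun i => g (Fin.ofNat 7 i) := by
  rw [w7, map_law7]
  simp only [FreeGroup.lift_apply_of]

theorem transfer {G H : Type} [Group H] (e : G ≃ H) {n : ℕ} (w : FreeGroup (Fin n))
    (h : IsLaw e.group w) (f : Fin n → H) : FreeGroup.lift f w = 1 := by
  let _ := e.group
  have h1 : FreeGroup.lift (fun i => e.symm (f i)) w = 1 := h _
  have h2 : (e.mulEquiv : G ≃* H).toMonoidHom.comp (FreeGroup.lift fun i => e.symm (f i)) =
      FreeGroup.lift f := by
    ext i
    simp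
  rw [← h2, MonoidHom.comp_apply, h1, map_one]

/-- A finite group `γ` on a set `G`, a word `v` whose operation is a group `δ` on the same set,
and a law of `γ` that fails in `δ`. -/
theorem result : ∃ (G : Type) (γ δ : Group G) (v : FreeGroup (Fin 2)) (n : ℕ)
    (w : FreeGroup (Fin n)), Finite G ∧ IsWordGroup γ v δ ∧ IsLaw γ w ∧ ¬ IsLaw δ w := by
  obtain ⟨B, _, hB, ⟨A⟩⟩ := finite_base
  have hR : Finite (B ⧸ ann (PP A.x A.y ^ 3)) := Quotient.finite _
  have hU := finite_UT (B ⧸ ann (PP A.x A.y ^ 3))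
  obtain ⟨e, v, hv⟩ := exists_structure A.setup
  obtain ⟨f, hf⟩ := law_H A.setup A.nz
  refine ⟨GG A.setup, inferInstance, e.symm.group, v, 7, w7, inferInstance, fun x y => ?_,
    fun g => ?_, fun h => hf ?_⟩
  · have := hv (e.symm x) (e.symm y)
    rw [e.apply_symm_apply, e.apply_symm_apply] at this
    exact this
  · exact (lift_w7 g).trans (law_G _ _)
  · have h1 := transfer e.symm w7 h fun i => f i
    rw [lift_w7] at h1
    exact h1

end Pool.Agent.Results.MP_394f71_al.FiniteWordGroup
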